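import Pool.Agent.helper82.T6.All
import Pool.Agent.helper3.T6R.All
import Pool.Agent.helper77.T6R.BA

/-!
MP_16912e_nt, partial result (`p = 5`, both signs): THE AVERAGE OF THE 5-TORSION OF THE CLASS GROUPS
OF QUADRATIC FIELDS IS BOUNDED, FOR REAL AND FOR IMAGINARY FIELDS.

There is a constant `C` such that for every `N`

  `∑_{0 < D < N, D fundamental} #Cl(ℚ(√D))[5] ≤ C * N` and `∑_{-N < D < 0, D fundamental} #Cl(ℚ(√D))[5] ≤ C * N`.

Here `f D` stands for `#Cl(ℚ(√D))[5]`, exactly as in the frozen statement.  The number of the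
fundamental discriminants in each sum is about `3 N / π ^ 2`.

Proof (sketch).  A class `C` with `C ^ 5 = 1` is given by integral ideals `a` in `C`, `L` in `C ^ (-2)`
with `a² L = (α)`, `ā L² = (γ)`, and these by tuples `(n, k, m, g, Z, Λ)` with

  `m g = Λ n² - Z k²`, `k ∣ m² - Z n²`, `n ∣ g² - Λ k²`, `D (n k)² = (Z g - Λ m)² - 4 Z² Λ k²`.

(1) Tuples of the critical size `|Z Λ| ≍ N` are counted by Weyl's method for binary quadratic phases
modulo `n³ k`, without the loss of a logarithm.  The error is governed by the lattices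
`Γ = {(A, A', B, X) : δ divides two binary cubic forms in (n, k) with coefficients A, A', B, X}`;
the main point is that these lattices have on average (over `δ` and the class of `n / k` modulo `δ`)
no short vectors: `∑ (√δ / λ(Γ)) ^ (3 / 2) ≪ #{Γ}`.  This is a bound for the number of divisors of the
resultant of two cubic forms in a dyadic interval, with a root condition, of the exact order of magnitude.
(2) Tuples whose discriminant is divisible by `d²` are saved by a factor about `d²` for `d ≤ N ^ η`.
(3) `D < 0`: for every ideal `a` of norm about `Y` such that the shortest vector of `a²` is about `Z √l`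
there are `≫ √N / l` elements `α` with a small common divisor of the two coefficients, so there are
`≪ √N Y` such ideals; the sum over dyadic `Y ≤ l ≤ √N` is `O(N)`.
(4) `D > 0`: the same for the pairs of an ideal `a` and a generator `θ` of `a ^ 5`, and the lattice `a²`
with the two real embeddings divided by those of `|θ| ^ (2 / 5)`.
-/

set_option autoImplicit false

open Classical

namespace Pool.Agent.Results.MP_16912e_nt.BoundedAverage

theorem result :
    ∃ C : ℝ, ∀ f : ℤ → ℕ,
      (∀ (K : Type) [Field K] [NumberField K], Module.finrank ℚ K = 2 →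
        f (NumberField.discr K) =
          Nat.card {x : ClassGroup (NumberField.RingOfIntegers K) // x ^ 5 = 1}) →
      ∀ N : ℕ,
        (∑ D ∈ (Finset.Ioo (0 : ℤ) (N : ℤ)).filter (fun D : ℤ =>
              (D % 4 = 1 ∧ D ≠ 1 ∧ Squarefree D) ∨
              (∃ m : ℤ, D = 4 * m ∧ (m % 4 = 2 ∨ m % 4 = 3) ∧ Squarefree m)),
            (f D : ℝ) ≤ C * N) ∧
        (∑ D ∈ (Finset.Ioo (-(N : ℤ)) (0 : ℤ)).filter (fun D : ℤ =>
              (D % 4 = 1 ∧ D ≠ 1 ∧ Squarefree D) ∨
              (∃ m : ℤ, D = 4 * m ∧ (m % 4 = 2 ∨ m % 4 = 3) ∧ Squarefree m)),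
            (f D : ℝ) ≤ C * N) :=
  Pool.Agent.T6R.BA_of Pool.Agent.T6.allUB Pool.Agent.T6R.allUBR

end Pool.Agent.Results.MP_16912e_nt.BoundedAverage
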