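import Pool.Agent.helper88.T8.All

/-!
MP_16912e_nt, partial result (`p = 5`, imaginary quadratic fields): THE COHEN-LENSTRA CONSTANT FOR ALL
CLASSES OF ORDER 5 WITH AN IDEAL OF NORM UP TO `κ √N`, A POSITIVE PROPORTION OF ALL CLASSES OF ORDER 5.

All sums are over the negative fundamental discriminants `D` with `|D| ≤ N`.

Let `h D Y` be the number of the classes of order 5 in `Cl(ℚ(√D))` which contain a nonzero integral
ideal of norm at most `Y`.  For every `ε > 0` there are `κ, r > 0` and `N₀` such that for `N ≥ N₀`: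

(1) for all `Y` with `N ^ (2 / 5) ≤ Y ≤ κ √N` the sum of `h D Y` is `(36 / π ^ 3 + O(ε)) Y √N`;

(2) for `Y = κ √N` this is at least `r` times the number of all classes of order 5, that is, the sum
of `#Cl(ℚ(√D))[5] - 1`; and this sum is at least `r N`.

`36 / π ^ 3` is the value given by the Cohen-Lenstra average (one class of order `5` per field) and
equidistribution of the corresponding CM points.
-/

set_option autoImplicit false

open NumberField Classical
open scoped nonZeroDivisors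

namespace Pool.Agent.Results.MP_16912e_nt.CriticalIdeals

/-- fundamental discriminants (the discriminants of the quadratic fields) -/
def IsFundamental (D : ℤ) : Prop :=
  (D % 4 = 1 ∧ D ≠ 1 ∧ Squarefree D) ∨ (∃ m : ℤ, D = 4 * m ∧ (m % 4 = 2 ∨ m % 4 = 3) ∧ Squarefree m)

/-- the classes of order 5 which contain a nonzero integral ideal of norm at most `Y` -/
def ClassesUpTo (K : Type) [Field K] [NumberField K] (Y : ℝ) : Set (ClassGroup (𝓞 K)) :=
  {c | c ^ 5 = 1 ∧ c ≠ 1 ∧ ∃ a : (Ideal (𝓞 K))⁰, ClassGroup.mk0 a = c ∧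
    (Ideal.absNorm (a : Ideal (𝓞 K)) : ℝ) ≤ Y}

private lemma filter_eq (s : Finset ℤ) :
    (@Finset.filter ℤ Pool.Agent.helper47.RA.IsFund (fun _ => Classical.propDecidable _) s) =
      s.filter IsFundamental := by
  ext D
  rw [Finset.mem_filter, Finset.mem_filter]
  rfl

theorem result (ε : ℝ) (hε : 0 < ε) : ∃ κ r N₀ : ℝ, 0 < κ ∧ 0 < r ∧ ∀ h : ℤ → ℝ → ℕ,
    (∀ (K : Type) [Field K] [NumberField K], Module.finrank ℚ K = 2 → ∀ Y : ℝ,
      h (NumberField.discr K) Y = (ClassesUpTo K Y).ncard) →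
    (∀ N Y : ℝ, N₀ ≤ N → N ^ (2 / 5 : ℝ) ≤ Y → Y ≤ κ * √N →
      |∑ D ∈ (Finset.Icc (-⌊N⌋) (-1)).filter IsFundamental,
          (h D Y : ℝ) - 36 / Real.pi ^ 3 * (Y * √N)| ≤ ε * (Y * √N)) ∧
    ∀ f : ℤ → ℕ,
    (∀ (K : Type) [Field K] [NumberField K], Module.finrank ℚ K = 2 →
      f (NumberField.discr K) = Nat.card {x : ClassGroup (𝓞 K) // x ^ 5 = 1}) →
    ∀ N : ℝ, N₀ ≤ N →
      r * ∑ D ∈ (Finset.Icc (-⌊N⌋) (-1)).filter IsFundamental, ((f D : ℝ) - 1) ≤
        ∑ D ∈ (Finset.Icc (-⌊N⌋) (-1)).filter IsFundamental, (h D (κ * √N) : ℝ) ∧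
      r * N ≤ ∑ D ∈ (Finset.Icc (-⌊N⌋) (-1)).filter IsFundamental, ((f D : ℝ) - 1) := by
  obtain ⟨κ, r, N₀, hκ, hr, h3⟩ := Pool.Agent.T8.final9 ε hε
  refine ⟨κ, r, N₀, hκ, hr, fun h hh => ?_⟩
  obtain ⟨h4, h5⟩ := h3 h (fun K _ _ h1 Y => hh K h1 Y)
  refine ⟨fun N Y hN hY hY' => ?_, fun f hf N hN => ?_⟩
  · have h6 := h4 N Y hN hY hY'
    rw [filter_eq] at h6
    exact h6
  · have h6 := h5 f (fun K _ _ h1 => hf K h1) N hN
    rw [filter_eq] at h6
    exact h6

end Pool.Agent.Results.MP_16912e_nt.CriticalIdeals
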