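import Pool.Agent.helper82.T6.All
import Pool.Agent.helper3.T6R.All
import Pool.Agent.helper77.T6R.BA
import Pool.Agent.helper6.RF.FIN3
import Pool.Agent.helper6.RF.FIN4
import Pool.Agent.helper95.RF.AllC3
import Pool.Agent.helper88.RL.AllW

/-!
MP_16912e_nt, partial result (`p = 5`, REAL quadratic fields): THE AVERAGE OF THE 5-TORSION EXCEEDS 1 BY A
POSITIVE CONSTANT.

There are `r > 0` and `N₀` such that for every `N ≥ N₀`

  `∑_{0 < D < N, D fundamental} (|Cl(ℚ(√D))[5]| - 1) ≥ r * N`.

Here `f D` stands for `|Cl(ℚ(√D))[5]|`, exactly as in the frozen statement.  Together with `BoundedAverage`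
(the sum is `O(N)`) this is the exact order of magnitude of the first moment of the nontrivial 5-torsion of the
real quadratic fields.

Proof (sketch).  `φ = (1 + √5) / 2`, `'` the conjugation of `ℚ(√5)`.  The mirror field of `D` is
`F = ℚ(√(-√5 φ D))`, a cyclic CM field of degree 4, with the generator `s` of its Galois group.
(A) Reflection.  If `β ∈ F` satisfies `β^s = β² g⁵`, `(β) = I⁵`, `β ≡ 1 mod 25`, then the fifth root of `β`
gives an unramified cyclic extension of degree 5 of `ℚ(√D)`; independent `β` give different extensions, and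
`|{β mod fifth powers}| ≤ |Cl(ℚ(√D))[5]|` (no class field theory: the norm group of an unramified cyclic
extension of degree 5 has index at least 5 by the ambiguous class number formula, and the densities of the
primes that split in two extensions show that the norm groups are different).
(B) Points.  A point is a solution of `X² + √5 φ D K² = n² n'`, `n M = φ X' K - X K'`, `K ∣ M² - n' K'²` with
`X, K, n, M ∈ ℤ[φ]`, `X ≡ n ≡ 1`, `K ≡ 0 mod 25`.  With `θ = X + K w` the element `u = θ² θ^s / n'²` is
integral, `u ū = n⁵` and `β = u n'⁵` is such an element if no rational prime divides both `n` and the square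
part of `D`.
(C) Counting.  All `K = 25 k` with `gcd(k, k') = 1` and norm of `k` up to `√N / ρ`, `ρ` a large constant: the
points are the `(s, M)` with `s ≡ Q_k(M) mod k³`, `Q_k` a quadratic form; they are counted by Weyl sums without
any loss of a logarithm: the lattices of the dual points have no short vectors on average over `k` (the method of
`BoundedAverage`, now over `ℤ[φ]`).  There are `≥ c ρ^(-2/3) N` points.
(D) Multiplicity.  A class `β` with given `D` contains few points: two of them give an integer `z` of `F` with
`z⁵ = ū₁ u₂` and small norm, whose coefficient of `w` is divisible by a large part of the square part `f` of `D`;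
the points with `f > ρ^(7/10)` are negligible by `BoundedAverage`.
-/

set_option autoImplicit false

open Classical

namespace Pool.Agent.Results.MP_16912e_nt.RealExcess

theorem result :
    ∃ r : ℝ, 0 < r ∧ ∃ N₀ : ℕ, ∀ f : ℤ → ℕ,
      (∀ (K : Type) [Field K] [NumberField K], Module.finrank ℚ K = 2 →
        f (NumberField.discr K) =
          Nat.card {x : ClassGroup (NumberField.RingOfIntegers K) // x ^ 5 = 1}) →
      ∀ N : ℕ, N₀ ≤ N →
        r * N ≤
          ∑ D ∈ (Finset.Ioo (0 : ℤ) (N : ℤ)).filter (fun D : ℤ =>
              (D % 4 = 1 ∧ D ≠ 1 ∧ Squarefree D) ∨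
              (∃ m : ℤ, D = 4 * m ∧ (m % 4 = 2 ∨ m % 4 = 3) ∧ Squarefree m)),
            ((f D : ℝ) - 1) := by
  obtain ⟨C, hC⟩ := Pool.Agent.T6R.BA_of Pool.Agent.T6.allUB Pool.Agent.T6R.allUBR
  exact Pool.Agent.RF.REAL3_of
    (Pool.Agent.RF.PTS3_ofW Pool.Agent.RL.LFS_final Pool.Agent.RL.VKA_final Pool.Agent.RL.VKB_final) Pool.Agent.RF.BT_six
    ⟨C, fun f hf N => (hC f hf N).1⟩

end Pool.Agent.Results.MP_16912e_nt.RealExcess
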